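import Pool.Agent.MP_1071ec_an.Mg.Main

/-! The satellite component attached to the main cardioid at internal angle `p / q`, together with
a collar of period-independent width in the multiplier coordinate, lies within
`K sin (π p / q) / q ^ 2` of its root. -/

set_option autoImplicit false

namespace Pool.Agent.Results.MP_1071ec_an.SatelliteSize

open Pool.Agent.MP_1071ec_an

theorem result :
    ∃ K δ : ℝ, 0 < δ ∧ ∀ p q : ℕ, 0 < p → p < q → Nat.Coprime p q →
      ∀ lam : ℂ, lam = Complex.exp (2 * Real.pi * Complex.I * p / q) →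
      ∀ X : Set (ℂ × ℂ), IsPreconnected X →
        (∀ c z : ℂ, (c, z) ∈ X → Function.minimalPeriod (fun w : ℂ => w ^ 2 + c) z = q ∧
          ‖deriv ((fun w : ℂ => w ^ 2 + c)^[q]) z‖ < 1 + δ) →
        (lam / 2 - lam ^ 2 / 4, lam / 2) ∈ closure X →
        ∀ c z : ℂ, (c, z) ∈ X →
          ‖c - (lam / 2 - lam ^ 2 / 4)‖ ≤ K * Real.sin (Real.pi * p / q) / (q : ℝ) ^ 2 := by
  obtain ⟨K, δ, hδ, h⟩ := main_c
  refine ⟨K, δ, hδ, fun p q hp hpq hc lam hl X hX hy h0 c z hcz => ?_⟩
  subst hl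
  exact h p q hp hpq hc X hX (fun y hy' => hy y.1 y.2 hy') h0 (c, z) hcz

end Pool.Agent.Results.MP_1071ec_an.SatelliteSize
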